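import Pool.Agent.H37.CNY.Stmts
import Pool.Agent.H90.CNY.Stmts

/-!
# Denominators of conductors: the divisor theorem, with the tame part of the board `cny` of helper90
-/

set_option autoImplicit false

namespace Pool.CND

open Finset Matrix

/-- DVW: the divisor theorem: wild part from `UPC`, tame part from `YT1` (as in `YT2`), `NGD` -/
def S_DVW : Prop := ∀ (p : ℕ) (k G : Type) [Field k] [Group G] [Finite G] (S : Subgroup G)
  (a m r : ℕ), p.Prime → CharP k p → (∃ n : ℕ, Nat.card S = p ^ n) → ¬ p ∣ m →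
  Nat.card G = Nat.card S * m →
  (∀ z ∈ S, z ≠ 1 → z ^ p = 1 → ∃ (H : Subgroup G) (d : ℕ), H ≤ S ∧ z ∈ H ∧ z ∉ ⁅H, H⁆ ∧ d ≤ a ∧
    Nat.card S = p ^ d * Nat.card H) →
  1 ≤ r → (∀ (g : G) (C : Subgroup G), ¬ p ∣ orderOf g → C ≠ ⊥ → EA p C →
    (∀ w ∈ C, g * w * g⁻¹ ∈ C) → YS g C → ∀ w ∈ C, g ^ r * w = w * g ^ r) →
  (∀ c ∈ Cond k G, ∃ y : ℤ, ((p ^ a * r : ℕ) : ℚ) * c = y) ∧ NG k G ∣ p ^ a * r

end Pool.CND
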