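import Pool.Agent.H37.CNH.Stmts
import Pool.Agent.H37.CNV.Stmts
import Pool.Agent.H37.CNX.Stmts

/-!
# Denominators of conductors: upper bounds from linear characters of subgroups: statements of the rows of the
board `cny`

Row `XXX` is a theorem `xxx_thm (h1 : S_AAA) ... : S_XXX` in `Pool/Agent/H<k>/CNY/XXX.lean`, importing this
file, namespace `Pool.CND`.
-/

set_option autoImplicit false

namespace Pool.CND

open Finset Matrix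

/-- HAC: `U(H)` is an integer if the last value of `b` on `H` is taken at some `z` not in the commutator subgroup
`N = ⁅H, H⁆` (`FXP`, `RST`, `HER`, `UQT` for `N`: `U(H) = U(H / N)`, and `HAB` for the abelian group `H / N` acting on the fixed
field of `N`) -/
def S_HAC : Prop := ∀ (p : ℕ) (k L G : Type) [Field k] [Field L] [Algebra k L] [Group G]
  [Fintype G] (P : Place k L) (ρ : G →* (L ≃ₐ[k] L)) (W H : Subgroup G) (l : ℤ) (z : G), p.Prime →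
  CharP k p → Function.Injective ρ → (W : Set G) = ram P ρ 1 → H ≤ W → z ∈ H → z ∉ ⁅H, H⁆ →
  P.b (ρ z) = l → IsLst (fun g => P.b (ρ g)) H l →
  ∃ y : ℤ, U (fun g => P.b (ρ g)) H l = y

/-- INC: from `H` to `I` (`MAX`, `CMB`, `HBP`, `UMW`, `HAC`, as `INB`) -/
def S_INC : Prop := ∀ (p : ℕ) (k L G : Type) [Field k] [Field L] [Algebra k L] [Group G]
  [Fintype G] (P : Place k L) (ρ : G →* (L ≃ₐ[k] L)) (W I H : Subgroup G) (d : ℕ) (l : ℤ) (z : G),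
  p.Prime → CharP k p → Function.Injective ρ → (W : Set G) = ram P ρ 1 → I ≤ W → H ≤ I →
  (∃ n : ℕ, Nat.card I = p ^ n) → z ∈ H → z ∉ ⁅H, H⁆ → P.b (ρ z) = l →
  Nat.card I = p ^ d * Nat.card H → IsLst (fun g => P.b (ρ g)) I l →
  ∃ y : ℤ, (p : ℚ) ^ d * U (fun g => P.b (ρ g)) I l = y

/-- UPC: `S` = Sylow subgroup.  `W = ram 1` lies in a conjugate of `S`; `z ∈ W` with `b z = l` the last value (then `z ^ p = 1`, as
`b (z ^ p) > b z` otherwise); `H` for the conjugate of `z`, intersected with the conjugate of `W` (its index in `W` is a power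
of `p`, at most `[S : H]`); `WLD`, `UMW`, `INC`, `CON` -/
def S_UPC : Prop := ∀ (p : ℕ) (k G : Type) [Field k] [Group G] [Finite G] (S : Subgroup G)
  (a m : ℕ), p.Prime → CharP k p → (∃ n : ℕ, Nat.card S = p ^ n) → ¬ p ∣ m →
  Nat.card G = Nat.card S * m →
  (∀ z ∈ S, z ≠ 1 → z ^ p = 1 → ∃ (H : Subgroup G) (d : ℕ), H ≤ S ∧ z ∈ H ∧ z ∉ ⁅H, H⁆ ∧ d ≤ a ∧
    Nat.card S = p ^ d * Nat.card H) →
  ∀ c ∈ Cond k G, ∃ y : ℤ, ((p ^ a * m : ℕ) : ℚ) * c = y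

/-- TAX: the tame part, as `TAM` (same proof) -/
def S_TAX : Prop := ∀ (p : ℕ) (k G : Type) [Field k] [Group G] [Finite G] (c : ℚ), p.Prime →
  CharP k p → c ∈ Cond k G → c = 0 ∨ ∃ (W I C : Subgroup G) (n : ℕ), C ≤ W ∧ W ≤ I ∧ C ≠ ⊥ ∧
    (∃ s : ℕ, Nat.card W = p ^ s) ∧ (∀ g ∈ I, ∀ w ∈ W, g * w * g⁻¹ ∈ W) ∧
    (∀ g ∈ I, ∀ x ∈ C, g * x * g⁻¹ ∈ C) ∧ (∀ w ∈ W, ∀ x ∈ C, w * x = x * w) ∧
    (∀ x ∈ C, x ^ p = 1) ∧ ¬ p ∣ n ∧ Nat.card I = n * Nat.card W ∧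
    ∀ r : ℕ, (∀ g ∈ I, ∀ x ∈ C, g ^ r * x = x * g ^ r) →
      ∃ (s : ℕ) (y : ℤ), ((p ^ s * r : ℕ) : ℚ) * c = y

/-- DIV: the divisor theorem, from `UPC`, `TAX`, `NGD`.  `g ∈ I` is `g_p g'` (powers of `g`), `g_p ∈ W` centralises `C`, `g'` of order
prime to `p`; so `g ^ r` centralises `C`; `p ^ s r c` and `p ^ a m c` integers give `p ^ a r c` integer -/
def S_DIV : Prop := ∀ (p : ℕ) (k G : Type) [Field k] [Group G] [Finite G] (S : Subgroup G)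
  (a m r : ℕ), p.Prime → CharP k p → (∃ n : ℕ, Nat.card S = p ^ n) → ¬ p ∣ m →
  Nat.card G = Nat.card S * m →
  (∀ z ∈ S, z ≠ 1 → z ^ p = 1 → ∃ (H : Subgroup G) (d : ℕ), H ≤ S ∧ z ∈ H ∧ z ∉ ⁅H, H⁆ ∧ d ≤ a ∧
    Nat.card S = p ^ d * Nat.card H) →
  1 ≤ r → (∀ (C : Subgroup G) (g : G), C ≠ ⊥ → EA p C → ¬ p ∣ orderOf g →
    (∀ x ∈ C, g * x * g⁻¹ ∈ C) → ∀ x ∈ C, g ^ r * x = x * g ^ r) → NG k G ∣ p ^ a * r

/-- ZUB: the upper bounds for `p`-groups, from `UPC`, `NGD`, `PTA` -/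
def S_ZUB : Prop := ∀ (p q : ℕ) (k G : Type) [Field k] [CharP k p] [Group G] [Finite G], p.Prime →
  (∃ a : ℕ, Nat.card G = p ^ a) → (∃ a : ℕ, 1 ≤ a ∧ q = p ^ a) →
  ((∀ z : G, z ^ p = 1 → z ≠ 1 → ∃ H : Subgroup G, z ∈ H ∧ z ∉ ⁅H, H⁆ ∧ H.index ∣ q) →
    NG k G ∣ q) ∧
  (p = 2 → (∃ A : Subgroup G, EA 2 A ∧ A.index = q) → 2 * NG k G ∣ q)

end Pool.CND
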